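import Pool.Agent.P.MP_3827cc_co.Small
import Pool.Agent.P.MP_3827cc_co.Fail

namespace Pool.Agent.Results.MP_3827cc_co.ExactN

open Pool.Agent.P.MP_3827cc_co

/-- For `N ≥ 1`, the identity `A_N(l) = B_N(l)` holds for all partitions `l` of all `n ≥ 1`
exactly when `N ≤ 2`. -/
theorem result (N : ℕ) (hN : 1 ≤ N) :
    (∀ n : ℕ, 1 ≤ n → ∀ l : n.Partition, sumA N l = sumB N l) ↔ N ≤ 2 := by
  constructor
  · intro H
    by_contra h
    obtain ⟨t, rfl⟩ : ∃ t, N = t + 3 := ⟨N - 3, by omega⟩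
    have h1 := sumA_sub_sumB_bad t
    have h2 := H _ (by omega) (bad t)
    omega
  · intro h n _ l
    have : N = 1 ∨ N = 2 := by omega
    rcases this with rfl | rfl
    · exact sum_eq_one l
    · exact sum_eq_two l

end Pool.Agent.Results.MP_3827cc_co.ExactN
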